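import Mathlib

set_option autoImplicit false
open MeasureTheory Filter Topology Set Metric InnerProductSpace Laplacian

namespace Q73.Core

theorem line_deriv {u : ℂ → ℝ} {x v : ℂ} (hu : ContDiffAt ℝ 2 u x) :
    ∀ᶠ t in 𝓝 (0 : ℝ), HasDerivAt (fun t : ℝ => u (x + t • v)) (fderiv ℝ u (x + t • v) v) t := by
  have h1 : ∀ᶠ y in 𝓝 x, ContDiffAt ℝ 2 u y := hu.eventually (by simp)
  have hc : Tendsto (fun t : ℝ => x + t • v) (𝓝 0) (𝓝 x) := by
    have : Continuous fun t : ℝ => x + t • v := by fun_prop
    have h2 := this.tendsto 0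
    simpa using h2
  filter_upwards [hc.eventually h1] with t ht
  have hd : HasFDerivAt u (fderiv ℝ u (x + t • v)) (x + t • v) :=
    (ht.differentiableAt (by simp)).hasFDerivAt
  have hl : HasDerivAt (fun t : ℝ => x + t • v) v t := by
    have := ((hasDerivAt_id t).smul_const v).const_add x
    simpa using this
  exact hd.comp_hasDerivAt t hl

theorem line_deriv2 {u : ℂ → ℝ} {x v : ℂ} (hu : ContDiffAt ℝ 2 u x) :
    HasDerivAt (fun t : ℝ => fderiv ℝ u (x + t • v) v) (iteratedFDeriv ℝ 2 u x ![v, v]) 0 := by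
  have h1 : DifferentiableAt ℝ (fderiv ℝ u) x :=
    (hu.fderiv_right (m := 1) (by norm_num)).differentiableAt (by simp)
  rw [iteratedFDeriv_two_apply]
  have hl : HasDerivAt (fun t : ℝ => x + t • v) v 0 := by
    have := ((hasDerivAt_id (0 : ℝ)).smul_const v).const_add x
    simpa using this
  have h2 : HasFDerivAt (fderiv ℝ u) (fderiv ℝ (fderiv ℝ u) x) (x + (0 : ℝ) • v) := by
    rw [zero_smul, add_zero]; exact h1.hasFDerivAt
  have h3 := h2.comp_hasDerivAt (0 : ℝ) hl
  have h4 := h3.clm_apply (hasDerivAt_const (0 : ℝ) v)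
  simpa using h4

/-- one-variable second derivative test -/
lemma second_deriv_nonpos {g : ℝ → ℝ} {x : ℝ} (hmax : IsLocalMax g x) (hc : ContinuousAt g x) :
    deriv (deriv g) x ≤ 0 := by
  by_contra hpos
  rw [not_le] at hpos
  have hd : deriv g x = 0 := hmax.deriv_eq_zero
  have hmin : IsLocalMin g x := isLocalMin_of_deriv_deriv_pos hpos hd hc
  have hconst : g =ᶠ[𝓝 x] fun _ => g x := by
    filter_upwards [hmax, hmin] with y h1 h2
    exact le_antisymm h1 h2
  have h1 : deriv g =ᶠ[𝓝 x] fun _ => (0:ℝ) := by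
    have := hconst.deriv
    simpa using this
  have h2 := h1.deriv_eq
  simp at h2
  exact absurd hpos (by rw [h2]; exact lt_irrefl _)

theorem iter_nonpos {u : ℂ → ℝ} {x : ℂ} (hu : ContDiffAt ℝ 2 u x)
    (hmax : IsLocalMax u x) (v : ℂ) : iteratedFDeriv ℝ 2 u x ![v, v] ≤ 0 := by
  have e1 := line_deriv (v := v) hu
  have e2 := line_deriv2 (v := v) hu
  have hc : Tendsto (fun t : ℝ => x + t • v) (𝓝 0) (𝓝 x) := by
    have : Continuous fun t : ℝ => x + t • v := by fun_prop
    have h2 := this.tendsto 0
    simpa using h2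
  have hm : IsLocalMax (fun t : ℝ => u (x + t • v)) 0 := by
    have := hc.eventually hmax
    filter_upwards [this] with t ht
    simpa using ht
  have e3 : deriv (fun t : ℝ => u (x + t • v)) =ᶠ[𝓝 0] fun t => fderiv ℝ u (x + t • v) v := by
    filter_upwards [e1] with t ht using ht.deriv
  have e4 : deriv (deriv (fun t : ℝ => u (x + t • v))) 0 = iteratedFDeriv ℝ 2 u x ![v, v] := by
    rw [e3.deriv_eq]
    exact e2.deriv
  rw [← e4]
  exact second_deriv_nonpos hm e1.self_of_nhds.continuousAt

/-- at a local maximum the Laplacian is nonpositive -/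
theorem laplacian_nonpos {u : ℂ → ℝ} {x : ℂ} (hu : ContDiffAt ℝ 2 u x)
    (hmax : IsLocalMax u x) : laplacian u x ≤ 0 := by
  rw [laplacian_eq_iteratedFDeriv_complexPlane]
  have h1 := iter_nonpos hu hmax 1
  have h2 := iter_nonpos hu hmax Complex.I
  simp only
  linarith

lemma contDiff_normSq : ContDiff ℝ 2 (fun z : ℂ => ‖z‖ ^ 2) := contDiff_norm_sq ℝ

/-- the Laplacian of `|z - a|²` is `4` -/
theorem laplacian_sq (a x : ℂ) : laplacian (fun z : ℂ => ‖z - a‖ ^ 2) x = 4 := by
  have hcd : ContDiff ℝ 2 (fun z : ℂ => ‖z - a‖ ^ 2) :=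
    (contDiff_norm_sq ℝ).comp (contDiff_id.sub contDiff_const)
  rw [laplacian_eq_iteratedFDeriv_complexPlane]
  have key : ∀ v : ℂ, iteratedFDeriv ℝ 2 (fun z : ℂ => ‖z - a‖ ^ 2) x ![v, v] = 2 * ‖v‖ ^ 2 := by
    intro v
    have e1 := line_deriv (v := v) (x := x) hcd.contDiffAt
    have e2 := line_deriv2 (v := v) (x := x) hcd.contDiffAt
    have h1 : ∀ t : ℝ, HasDerivAt (fun t : ℝ => ‖x + t • v - a‖ ^ 2)
        (2 * t * ‖v‖ ^ 2 + 2 * ((x - a).re * v.re + (x - a).im * v.im)) t := by
      intro t
      have e : (fun t : ℝ => ‖x + t • v - a‖ ^ 2) = fun t : ℝ => t ^ 2 * ‖v‖ ^ 2 +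
          t * (2 * ((x - a).re * v.re + (x - a).im * v.im)) + ‖x - a‖ ^ 2 := by
        funext t
        rw [← Complex.normSq_eq_norm_sq, ← Complex.normSq_eq_norm_sq, ← Complex.normSq_eq_norm_sq,
          Complex.normSq_apply, Complex.normSq_apply, Complex.normSq_apply]
        simp
        ring
      rw [e]
      have := (((hasDerivAt_pow 2 t).mul_const (‖v‖ ^ 2)).add
        ((hasDerivAt_id t).mul_const (2 * ((x - a).re * v.re + (x - a).im * v.im)))).add_const
          (‖x - a‖ ^ 2)
      refine HasDerivAt.congr_deriv this ?_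
      norm_num
    have e3 : (fun t : ℝ => fderiv ℝ (fun z : ℂ => ‖z - a‖ ^ 2) (x + t • v) v) =ᶠ[𝓝 0]
        fun t => 2 * t * ‖v‖ ^ 2 + 2 * ((x - a).re * v.re + (x - a).im * v.im) := by
      filter_upwards [e1] with t ht
      exact ht.unique (h1 t)
    have e4 : HasDerivAt (fun t : ℝ => 2 * t * ‖v‖ ^ 2 +
        2 * ((x - a).re * v.re + (x - a).im * v.im)) (2 * ‖v‖ ^ 2) 0 := by
      have := (((hasDerivAt_id (0:ℝ)).const_mul 2).mul_const (‖v‖ ^ 2)).add_const
        (2 * ((x - a).re * v.re + (x - a).im * v.im))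
      refine HasDerivAt.congr_deriv this ?_
      norm_num
    exact (e3.hasDerivAt_iff.1 e2).unique e4
  simp only
  rw [key, key]
  simp
  norm_num

/-- **Liouville.** A `C²` function on the plane with nonnegative Laplacian, bounded above, is
constant. -/
theorem liouville {u : ℂ → ℝ} (hu : ContDiff ℝ 2 u) (hL : ∀ z, 0 ≤ laplacian u z) {C : ℝ}
    (hC : ∀ z, u z ≤ C) (z a : ℂ) : u z = u a := by
  suffices H : ∀ z a : ℂ, u z ≤ u a from le_antisymm (H z a) (H a z)
  clear z a
  intro z a
  -- for every `ρ`, the values are at most the maximum over the circle of radius `ρ`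
  have key : ∀ ρ : ℝ, 0 < ρ → ∀ M : ℝ, (∀ w, ‖w - a‖ ≤ ρ → u w ≤ M) → u z ≤ M := by
    intro ρ hρ M hM
    by_cases hz : ‖z - a‖ ≤ ρ
    · exact hM z hz
    rw [not_le] at hz
    -- `u z ≤ M + ε log (|z-a|/ρ)` for all `ε`
    have main : ∀ ε : ℝ, 0 < ε → u z ≤ M + ε * Real.log (‖z - a‖ / ρ) := by
      intro ε hε
      -- choose a large radius
      obtain ⟨R, hR1, hR2⟩ : ∃ R : ℝ, ‖z - a‖ < R ∧ C < M + ε * Real.log (R / ρ) := by
        have ht : Tendsto (fun R : ℝ => M + ε * Real.log (R / ρ)) atTop atTop := by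
          apply tendsto_atTop_add_const_left
          apply Tendsto.const_mul_atTop hε
          exact Real.tendsto_log_atTop.comp (tendsto_id.atTop_div_const hρ)
        obtain ⟨R, hR⟩ := ((ht.eventually_gt_atTop C).and (eventually_gt_atTop ‖z - a‖)).exists
        exact ⟨R, hR.2, hR.1⟩
      have hρR : ρ < R := hz.trans hR1
      -- perturbation with `δ`
      have main2 : ∀ δ : ℝ, 0 < δ → u z ≤ M + ε * Real.log (‖z - a‖ / ρ) + δ * R ^ 2 := by
        intro δ hδ
        set h : ℂ → ℝ := fun w => u w - ε * Real.log ‖w - a‖ + δ * ‖w - a‖ ^ 2 with hh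
        set A : Set ℂ := {w | ρ ≤ ‖w - a‖ ∧ ‖w - a‖ ≤ R} with hA
        have hAc : IsCompact A := by
          have : A ⊆ closedBall a R := fun w hw => by
            rw [mem_closedBall, dist_eq_norm]; exact hw.2
          apply IsCompact.of_isClosed_subset (isCompact_closedBall a R) _ this
          have hcn : Continuous fun w : ℂ => ‖w - a‖ := by fun_prop
          exact (isClosed_le continuous_const hcn).inter (isClosed_le hcn continuous_const)
        have hAn : A.Nonempty := ⟨z, hz.le, hR1.le⟩
        have hcd : ∀ w : ℂ, w ≠ a → ContDiffAt ℝ 2 h w := by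
          intro w hw
          have h1 : ContDiffAt ℝ 2 (fun w : ℂ => ‖w - a‖) w := by
            have := contDiffAt_norm (n := 2) ℝ (sub_ne_zero.2 hw)
            exact this.comp w (contDiffAt_id.sub contDiffAt_const)
          exact ((hu.contDiffAt).sub (contDiffAt_const.mul (h1.log
            (norm_ne_zero_iff.2 (sub_ne_zero.2 hw))))).add (contDiffAt_const.mul (h1.pow 2))
        have hne : ∀ w ∈ A, w ≠ a := by
          rintro w hw rfl
          have := hw.1
          simp at this
          linarith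
        have hcont : ContinuousOn h A := fun w hw =>
          ((hcd w (hne w hw)).continuousAt).continuousWithinAt
        obtain ⟨p, hpA, hp⟩ := hAc.exists_isMaxOn hAn hcont
        have hbd : ‖p - a‖ = ρ ∨ ‖p - a‖ = R := by
          by_contra hcon
          push Not at hcon
          have h1 : ρ < ‖p - a‖ := lt_of_le_of_ne hpA.1 (Ne.symm hcon.1)
          have h2 : ‖p - a‖ < R := lt_of_le_of_ne hpA.2 hcon.2
          have hloc : IsLocalMax h p := by
            have hnh : {w : ℂ | ρ < ‖w - a‖ ∧ ‖w - a‖ < R} ∈ 𝓝 p := by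
              have hcn : Continuous fun w : ℂ => ‖w - a‖ := by fun_prop
              exact IsOpen.mem_nhds ((isOpen_lt continuous_const hcn).inter
                (isOpen_lt hcn continuous_const)) ⟨h1, h2⟩
            filter_upwards [hnh] with w hw
            exact hp ⟨hw.1.le, hw.2.le⟩
          have hpa : p ≠ a := hne p hpA
          have hlap := laplacian_nonpos (hcd p hpa) hloc
          have hlog : HarmonicAt (fun w : ℂ => Real.log ‖w - a‖) p := by
            have hf : AnalyticAt ℂ (fun w : ℂ => w - a) p := by fun_prop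
            exact hf.harmonicAt_log_norm (sub_ne_zero.2 hpa)
          have e1 : laplacian h p = laplacian u p - ε * laplacian (fun w : ℂ => Real.log ‖w - a‖) p
              + δ * laplacian (fun w : ℂ => ‖w - a‖ ^ 2) p := by
            have c1 : ContDiffAt ℝ 2 u p := hu.contDiffAt
            have c2 : ContDiffAt ℝ 2 (fun w : ℂ => Real.log ‖w - a‖) p := hlog.1
            have c3 : ContDiffAt ℝ 2 (fun w : ℂ => ‖w - a‖ ^ 2) p :=
              ((contDiff_norm_sq ℝ).comp (contDiff_id.sub contDiff_const)).contDiffAt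
            have c2' : ContDiffAt ℝ 2 (ε • fun w : ℂ => Real.log ‖w - a‖) p := c2.const_smul ε
            have c3' : ContDiffAt ℝ 2 (δ • fun w : ℂ => ‖w - a‖ ^ 2) p := c3.const_smul δ
            have hhe : h = (u - ε • fun w : ℂ => Real.log ‖w - a‖) + δ • fun w : ℂ => ‖w - a‖ ^ 2 := by
              funext w; simp [hh]
            have c12 : ContDiffAt ℝ 2 (u - ε • fun w : ℂ => Real.log ‖w - a‖) p := c1.sub c2'
            rw [hhe, ContDiffAt.laplacian_add c12 c3', ContDiffAt.laplacian_sub c1 c2',
              laplacian_smul _ c2, laplacian_smul _ c3]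
            simp
          rw [e1, laplacian_sq, hlog.2.self_of_nhds] at hlap
          have := hL p
          simp at hlap
          nlinarith
        have hzA : z ∈ A := ⟨hz.le, hR1.le⟩
        have hle : h z ≤ h p := hp hzA
        have hpub : h p ≤ M - ε * Real.log ρ + δ * R ^ 2 := by
          rcases hbd with hb | hb
          · have h1 : u p ≤ M := hM p hb.le
            simp only [hh]
            rw [hb]
            have : δ * ρ ^ 2 ≤ δ * R ^ 2 := by gcongr
            linarith
          · simp only [hh]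
            rw [hb]
            have h1 : u p ≤ C := hC p
            have h2 : ε * Real.log (R / ρ) = ε * Real.log R - ε * Real.log ρ := by
              rw [Real.log_div (by linarith) hρ.ne']; ring
            linarith
        have hz' : h z = u z - ε * Real.log ‖z - a‖ + δ * ‖z - a‖ ^ 2 := rfl
        have h3 : ε * Real.log (‖z - a‖ / ρ) = ε * Real.log ‖z - a‖ - ε * Real.log ρ := by
          rw [Real.log_div (by linarith) hρ.ne']; ring
        have h4 : 0 ≤ δ * ‖z - a‖ ^ 2 := by positivity
        linarith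
      have hR0 : 0 < R := hρ.trans hρR
      refine le_of_forall_pos_le_add fun η hη => ?_
      have := main2 (η / R ^ 2) (by positivity)
      have e : η / R ^ 2 * R ^ 2 = η := by field_simp
      linarith
    have hlogpos : 0 < Real.log (‖z - a‖ / ρ) := Real.log_pos (by rw [lt_div_iff₀ hρ]; linarith)
    refine le_of_forall_pos_le_add fun η hη => ?_
    have := main (η / Real.log (‖z - a‖ / ρ)) (by positivity)
    have e : η / Real.log (‖z - a‖ / ρ) * Real.log (‖z - a‖ / ρ) = η := by field_simp
    linarith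
  -- let `ρ → 0`
  refine le_of_forall_pos_le_add fun η hη => ?_
  have hc : ContinuousAt u a := hu.continuous.continuousAt
  obtain ⟨ρ, hρ, hball⟩ := Metric.continuousAt_iff.1 hc η hη
  apply key (ρ / 2) (by positivity)
  intro w hw
  have h1 : dist w a < ρ := by rw [dist_eq_norm]; linarith
  have h2 := hball h1
  rw [Real.dist_eq] at h2
  have := abs_lt.1 h2
  linarith [this.2]

end Q73.Core
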